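import Pool.Agent.H53.DM.AVJ0
import Pool.Agent.H24.DM.Stm

/-!
# Module AVJ
-/

set_option autoImplicit false

namespace Pool.Agent.H53.DM

theorem avj : Pool.Agent.H24.DM.S_AVJ := by
  intro ι _ _ J B hJ hB hBJ hpos
  exact avj0 J B hJ hB hBJ hpos

end Pool.Agent.H53.DM
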