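import Mathlib
import Pool.Graph.R_pool_sql_team_seeded_3997aac3.Q60.D3.Defs

/-!
# The abelian variety of a complex structure and a Riemann form
-/

set_option autoImplicit false

namespace Pool.Agent.H53.DM

open Matrix Module Pool.Agent.Q60.D3

variable {ι : Type} [Fintype ι] [DecidableEq ι]

/-- the tangent space: the eigenspace of `J` for `i` -/
def W (J : Matrix ι ι ℝ) : Submodule ℂ (ι → ℂ) where
  carrier := {v | ∀ i, ∑ j, (J i j : ℂ) * v j = Complex.I * v i}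
  add_mem' := by
    intro a b ha hb i
    simp only [Pi.add_apply, mul_add, Finset.sum_add_distrib, ha i, hb i]
  zero_mem' := by
    intro i
    simp
  smul_mem' := by
    intro c a ha i
    simp only [Pi.smul_apply, smul_eq_mul]
    rw [show ∑ j, (J i j : ℂ) * (c * a j) = c * ∑ j, (J i j : ℂ) * a j by
      rw [Finset.mul_sum]
      exact Finset.sum_congr rfl fun j _ => by ring, ha i]
    ring

theorem cast_mulVec (J : Matrix ι ι ℝ) (x : ι → ℝ) (i : ι) :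
    ∑ j, (J i j : ℂ) * (x j : ℂ) = ((J *ᵥ x) i : ℂ) := by
  simp [mulVec, dotProduct]

theorem f0_mem (J : Matrix ι ι ℝ) (hJ : J * J = -1) (a : ι → ℝ) :
    (fun i => (a i : ℂ) - Complex.I * ((J *ᵥ a) i : ℂ)) ∈ W J := by
  intro i
  have h1 : (J *ᵥ (J *ᵥ a)) i = - a i := by
    rw [mulVec_mulVec, hJ, neg_mulVec, one_mulVec, Pi.neg_apply]
  have h2 : ∑ j, (J i j : ℂ) * ((a j : ℂ) - Complex.I * ((J *ᵥ a) j : ℂ)) =
      ∑ j, (J i j : ℂ) * (a j : ℂ) - Complex.I * ∑ j, (J i j : ℂ) * ((J *ᵥ a) j : ℂ) := by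
    rw [Finset.mul_sum, ← Finset.sum_sub_distrib]
    exact Finset.sum_congr rfl fun j _ => by ring
  rw [h2, cast_mulVec, cast_mulVec, h1, mul_sub, ← mul_assoc, Complex.I_mul_I]
  push_cast
  ring

/-- the real period map -/
noncomputable def perR (J : Matrix ι ι ℝ) (hJ : J * J = -1) : (ι → ℝ) →ₗ[ℝ] W J where
  toFun a := ⟨fun i => (a i : ℂ) - Complex.I * ((J *ᵥ a) i : ℂ), f0_mem J hJ a⟩
  map_add' a b := by
    apply Subtype.ext
    funext i
    simp only [mulVec_add, Pi.add_apply, Submodule.coe_add]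
    push_cast
    ring
  map_smul' r a := by
    apply Subtype.ext
    funext i
    simp only [mulVec_smul, Pi.smul_apply, smul_eq_mul, RingHom.id_apply]
    rw [show ((r • (⟨fun i => (a i : ℂ) - Complex.I * ((J *ᵥ a) i : ℂ), f0_mem J hJ a⟩ : W J) :
      W J) : ι → ℂ) = (r : ℂ) • (fun i => (a i : ℂ) - Complex.I * ((J *ᵥ a) i : ℂ)) from rfl]
    simp only [Pi.smul_apply, smul_eq_mul]
    push_cast
    ring

theorem perR_apply (J : Matrix ι ι ℝ) (hJ : J * J = -1) (a : ι → ℝ) (i : ι) :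
    (perR J hJ a).1 i = (a i : ℂ) - Complex.I * ((J *ᵥ a) i : ℂ) := rfl

theorem perR_re (J : Matrix ι ι ℝ) (hJ : J * J = -1) (v : W J) :
    perR J hJ (fun i => (v.1 i).re) = v := by
  apply Subtype.ext
  funext i
  rw [perR_apply]
  have h1 := congrArg Complex.re (v.2 i)
  rw [Complex.re_sum] at h1
  have h2 : (J *ᵥ fun i => (v.1 i).re) i = -(v.1 i).im := by
    rw [mulVec, dotProduct]
    refine Eq.trans ?_ (h1.trans ?_)
    · exact Finset.sum_congr rfl fun j _ => by simp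
    · simp
  rw [h2]
  apply Complex.ext
  · simp
  · simp

theorem perR_injective (J : Matrix ι ι ℝ) (hJ : J * J = -1) :
    Function.Injective (perR J hJ) := by
  intro a b h
  funext i
  have h1 := congrArg (fun v : W J => (v.1 i).re) h
  simpa [perR_apply] using h1

theorem finrank_W (J : Matrix ι ι ℝ) (hJ : J * J = -1) :
    Fintype.card ι = 2 * finrank ℂ (W J) := by
  have e : (ι → ℝ) ≃ₗ[ℝ] W J := LinearEquiv.ofBijective (perR J hJ)
    ⟨perR_injective J hJ, fun v => ⟨_, perR_re J hJ v⟩⟩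
  rw [← finrank_real_of_complex, ← e.finrank_eq, finrank_fintype_fun_eq_card]

/-- the rational period map -/
noncomputable def perQ (J : Matrix ι ι ℝ) (hJ : J * J = -1) : (ι → ℚ) →+ W J where
  toFun x := perR J hJ (fun i => (x i : ℝ))
  map_zero' := by
    rw [← map_zero (perR J hJ)]
    congr 1
    funext i
    simp
  map_add' x y := by
    rw [← map_add]
    congr 1
    funext i
    simp

theorem perQ_single (J : Matrix ι ι ℝ) (hJ : J * J = -1) (j : ι) :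
    perQ J hJ (Pi.single j 1) = perR J hJ (Pi.single j 1) := by
  show perR J hJ _ = _
  congr 1
  funext i
  by_cases h : i = j
  · subst h
    simp
  · simp [h]

theorem span_perQ (J : Matrix ι ι ℝ) (hJ : J * J = -1) :
    Submodule.span ℝ (Set.range (perQ J hJ)) = ⊤ := by
  rw [eq_top_iff]
  intro v _
  rw [← perR_re J hJ v]
  set a : ι → ℝ := fun i => (v.1 i).re
  have h1 : a = ∑ i, a i • (Pi.single i (1 : ℝ) : ι → ℝ) := by
    funext l
    simp [Finset.sum_apply, Pi.single_apply]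
  rw [h1, map_sum]
  apply Submodule.sum_mem
  intro i _
  rw [map_smul, ← perQ_single]
  exact Submodule.smul_mem _ _ (Submodule.subset_span ⟨_, rfl⟩)

/-- the values of the hermitian form -/
theorem herm_val (J : Matrix ι ι ℝ) (hJ : J * J = -1) (B : Matrix ι ι ℝ) (hB : Bᵀ = -B)
    (hBJ : (B * J)ᵀ = B * J) (a b : ι → ℝ) :
    -Complex.I * ∑ i, ∑ j, (perR J hJ a).1 i * ((B i j : ℂ) * starRingEnd ℂ ((perR J hJ b).1 j)) =
      2 * ((a ⬝ᵥ ((B * J) *ᵥ b) : ℝ) : ℂ) - 2 * Complex.I * ((a ⬝ᵥ (B *ᵥ b) : ℝ) : ℂ) := by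
  have hJB : Jᵀ * B = -(B * J) := by
    have := hBJ
    rw [transpose_mul, hB, mul_neg] at this
    rw [← this, neg_neg]
  have e1 : (J *ᵥ a) ⬝ᵥ (B *ᵥ b) = -(a ⬝ᵥ ((B * J) *ᵥ b)) := by
    rw [dotProduct_comm, dotProduct_mulVec, ← mulVec_transpose, dotProduct_comm, mulVec_mulVec, hJB,
      neg_mulVec, dotProduct_neg]
  have e2 : (J *ᵥ a) ⬝ᵥ (B *ᵥ (J *ᵥ b)) = a ⬝ᵥ (B *ᵥ b) := by
    rw [dotProduct_comm, dotProduct_mulVec, ← mulVec_transpose, dotProduct_comm, mulVec_mulVec, hJB,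
      neg_mulVec, mulVec_mulVec, mul_assoc, hJ, mul_neg, mul_one, neg_mulVec, neg_neg]
  have e3 : a ⬝ᵥ (B *ᵥ (J *ᵥ b)) = a ⬝ᵥ ((B * J) *ᵥ b) := by
    rw [mulVec_mulVec]
  have key : ∀ x y : ι → ℝ, ((x ⬝ᵥ (B *ᵥ y) : ℝ) : ℂ) =
      ∑ i, ∑ j, (x i : ℂ) * ((B i j : ℂ) * (y j : ℂ)) := by
    intro x y
    simp only [dotProduct, mulVec, Finset.mul_sum]
    push_cast
    rfl
  have h1 : ∑ i, ∑ j, (perR J hJ a).1 i * ((B i j : ℂ) * starRingEnd ℂ ((perR J hJ b).1 j)) =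
      ((a ⬝ᵥ (B *ᵥ b) : ℝ) : ℂ) + Complex.I * ((a ⬝ᵥ (B *ᵥ (J *ᵥ b)) : ℝ) : ℂ) -
      Complex.I * (((J *ᵥ a) ⬝ᵥ (B *ᵥ b) : ℝ) : ℂ) + (((J *ᵥ a) ⬝ᵥ (B *ᵥ (J *ᵥ b)) : ℝ) : ℂ) := by
    rw [key, key, key, key]
    simp only [Finset.mul_sum, ← Finset.sum_add_distrib, ← Finset.sum_sub_distrib]
    refine Finset.sum_congr rfl fun i _ => Finset.sum_congr rfl fun j _ => ?_
    rw [perR_apply, perR_apply, map_sub, map_mul, Complex.conj_I, Complex.conj_ofReal,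
      Complex.conj_ofReal]
    linear_combination (- ((J *ᵥ a) i : ℂ) * (B i j : ℂ) * ((J *ᵥ b) j : ℂ)) * Complex.I_mul_I
  rw [h1, e1, e2, e3]
  push_cast
  linear_combination (-2 * ((a ⬝ᵥ ((B * J) *ᵥ b) : ℝ) : ℂ)) * Complex.I_mul_I

/-- the hermitian form -/
noncomputable def Ef (B : Matrix ι ι ℚ) (u u' : ι → ℂ) : ℂ :=
  -Complex.I * ∑ i, ∑ j, u i * (((B i j : ℝ) : ℂ) * starRingEnd ℂ (u' j))

theorem Ef_add (B : Matrix ι ι ℚ) (u v u' : ι → ℂ) : Ef B (u + v) u' = Ef B u u' + Ef B v u' := by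
  unfold Ef
  rw [← mul_add, ← Finset.sum_add_distrib]
  congr 1
  refine Finset.sum_congr rfl fun i _ => ?_
  rw [← Finset.sum_add_distrib]
  refine Finset.sum_congr rfl fun j _ => ?_
  rw [Pi.add_apply]
  ring

theorem Ef_smul (B : Matrix ι ι ℚ) (c : ℂ) (u u' : ι → ℂ) : Ef B (c • u) u' = c • Ef B u u' := by
  unfold Ef
  rw [smul_eq_mul, mul_left_comm, Finset.mul_sum Finset.univ _ c]
  congr 1
  refine Finset.sum_congr rfl fun i _ => ?_
  rw [Finset.mul_sum]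
  refine Finset.sum_congr rfl fun j _ => ?_
  rw [Pi.smul_apply, smul_eq_mul]
  ring

theorem Ef_conj (B : Matrix ι ι ℚ) (hB : Bᵀ = -B) (u u' : ι → ℂ) :
    Ef B u' u = starRingEnd ℂ (Ef B u u') := by
  have hBij : ∀ i j, (B j i : ℝ) = -(B i j : ℝ) := by
    intro i j
    have := congrFun (congrFun hB i) j
    rw [transpose_apply, Matrix.neg_apply] at this
    rw [this]
    push_cast
    rfl
  unfold Ef
  rw [map_mul, map_neg, Complex.conj_I, map_sum, Finset.sum_comm, neg_neg, neg_mul, ← mul_neg,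
    ← Finset.sum_neg_distrib]
  congr 1
  refine Finset.sum_congr rfl fun i _ => ?_
  rw [map_sum, ← Finset.sum_neg_distrib]
  refine Finset.sum_congr rfl fun j _ => ?_
  rw [map_mul, map_mul, Complex.conj_ofReal, Complex.conj_conj, hBij i j]
  push_cast
  ring

/-- the polarization -/
theorem pol_perQ (J : Matrix ι ι ℝ) (hJ : J * J = -1) (B : Matrix ι ι ℚ) (hB : Bᵀ = -B)
    (hBJ : (B.map (fun q : ℚ => (q : ℝ)) * J)ᵀ = B.map (fun q : ℚ => (q : ℝ)) * J)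
    (hpos : ∀ x : ι → ℝ, x ≠ 0 → 0 < x ⬝ᵥ ((B.map (fun q : ℚ => (q : ℝ)) * J) *ᵥ x)) :
    ∃ E : W J → W J → ℂ, (∀ u', IsLinearMap ℂ fun u => E u u') ∧
    (∀ u u', E u' u = starRingEnd ℂ (E u u')) ∧ (∀ u, u ≠ 0 → 0 < (E u u).re) ∧
    ∀ v w, ∃ q : ℚ, (E (perQ J hJ v) (perQ J hJ w)).im = q := by
  have hB' : (B.map (fun q : ℚ => (q : ℝ)))ᵀ = -B.map (fun q : ℚ => (q : ℝ)) := by
    ext i j
    have := congrFun (congrFun hB i) j
    rw [transpose_apply, Matrix.neg_apply] at this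
    rw [transpose_apply, Matrix.neg_apply, Matrix.map_apply, Matrix.map_apply, this]
    push_cast
    rfl
  have hval : ∀ a b : ι → ℝ, Ef B (perR J hJ a).1 (perR J hJ b).1 =
      2 * ((a ⬝ᵥ ((B.map (fun q : ℚ => (q : ℝ)) * J) *ᵥ b) : ℝ) : ℂ) -
        2 * Complex.I * ((a ⬝ᵥ (B.map (fun q : ℚ => (q : ℝ)) *ᵥ b) : ℝ) : ℂ) := fun a b =>
    herm_val J hJ (B.map (fun q : ℚ => (q : ℝ))) hB' hBJ a b
  refine ⟨fun u u' => Ef B u.1 u'.1, fun u' => ⟨fun u v => Ef_add B _ _ _,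
    fun c u => Ef_smul B _ _ _⟩, fun u u' => Ef_conj B hB _ _,
    fun u hu => ?_, fun v w => ?_⟩
  · obtain ⟨a, rfl⟩ : ∃ a, perR J hJ a = u := ⟨_, perR_re J hJ u⟩
    show 0 < (Ef B (perR J hJ a).1 (perR J hJ a).1).re
    rw [hval]
    have ha : a ≠ 0 := by
      rintro rfl
      exact hu (map_zero _)
    have h2 := hpos a ha
    simp only [Complex.sub_re, Complex.mul_re, Complex.ofReal_re, Complex.ofReal_im, Complex.I_re,
      Complex.I_im, Complex.re_ofNat, Complex.im_ofNat, Complex.mul_im]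
    linarith
  · refine ⟨-2 * (v ⬝ᵥ (B *ᵥ w)), ?_⟩
    show (Ef B (perR J hJ (fun i => (v i : ℝ))).1 (perR J hJ (fun i => (w i : ℝ))).1).im = _
    rw [hval]
    simp only [Complex.sub_im, Complex.mul_re, Complex.ofReal_re, Complex.ofReal_im, Complex.I_re,
      Complex.I_im, Complex.re_ofNat, Complex.im_ofNat, Complex.mul_im]
    have h3 : ((fun i => (v i : ℝ)) ⬝ᵥ (B.map (fun q : ℚ => (q : ℝ)) *ᵥ fun i => (w i : ℝ))) =
        ((v ⬝ᵥ (B *ᵥ w) : ℚ) : ℝ) := by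
      simp only [dotProduct, mulVec, Matrix.map_apply]
      push_cast
      rfl
    rw [h3]
    push_cast
    ring

/-- the abelian variety -/
noncomputable def av (J : Matrix ι ι ℝ) (hJ : J * J = -1) (B : Matrix ι ι ℚ) (hB : Bᵀ = -B)
    (hBJ : (B.map (fun q : ℚ => (q : ℝ)) * J)ᵀ = B.map (fun q : ℚ => (q : ℝ)) * J)
    (hpos : ∀ x : ι → ℝ, x ≠ 0 → 0 < x ⬝ᵥ ((B.map (fun q : ℚ => (q : ℝ)) * J) *ᵥ x)) : AV where
  H := ι → ℚ
  T := W J
  per := perQ J hJ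
  span := span_perQ J hJ
  dim := by
    rw [finrank_fintype_fun_eq_card]
    exact finrank_W J hJ
  pol := pol_perQ J hJ B hB hBJ hpos

theorem av_isJ (J : Matrix ι ι ℝ) (hJ : J * J = -1) (j : ι) :
    Complex.I • perQ J hJ (Pi.basisFun ℚ ι j) =
      ∑ i, (J i j : ℂ) • perQ J hJ (Pi.basisFun ℚ ι i) := by
  have h1 : ∀ i, perQ J hJ (Pi.basisFun ℚ ι i) = perR J hJ (Pi.single i 1) := by
    intro i
    rw [Pi.basisFun_apply]
    exact perQ_single J hJ i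
  simp only [h1]
  apply Subtype.ext
  funext l
  rw [Submodule.coe_smul, Pi.smul_apply, Submodule.coe_sum, Finset.sum_apply]
  simp only [Submodule.coe_smul, Pi.smul_apply, smul_eq_mul, perR_apply, mulVec_single_one,
    Matrix.col_apply]
  have h2 : ∑ i, (J i j : ℂ) * (((Pi.single i (1 : ℝ) : ι → ℝ) l : ℂ) - Complex.I * (J l i : ℂ)) =
      ∑ i, (J i j : ℂ) * ((Pi.single i (1 : ℝ) : ι → ℝ) l : ℂ) -
        Complex.I * ∑ i, (J l i : ℂ) * (J i j : ℂ) := by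
    rw [Finset.mul_sum, ← Finset.sum_sub_distrib]
    exact Finset.sum_congr rfl fun i _ => by ring
  have h3 : ∑ i, (J l i : ℂ) * (J i j : ℂ) = -((1 : Matrix ι ι ℝ) l j : ℂ) := by
    have := congrFun (congrFun hJ l) j
    rw [mul_apply, neg_apply] at this
    rw [← Complex.ofReal_neg, ← this]
    push_cast
    rfl
  have h4 : ∑ i, (J i j : ℂ) * ((Pi.single i (1 : ℝ) : ι → ℝ) l : ℂ) = (J l j : ℂ) := by
    rw [Finset.sum_eq_single l]
    · simp
    · intro b _ hb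
      rw [Pi.single_eq_of_ne (Ne.symm hb)]
      simp
    · intro h
      exact absurd (Finset.mem_univ _) h
  rw [h2, h3, h4]
  have h5 : ((Pi.single j (1 : ℝ) : ι → ℝ) l) = (1 : Matrix ι ι ℝ) l j := by
    rw [Pi.single_apply, one_apply]
  rw [h5]
  linear_combination (-(J l j : ℂ)) * Complex.I_mul_I

/-- the statement -/
theorem avj0 (J : Matrix ι ι ℝ) (B : Matrix ι ι ℚ) (hJ : J * J = -1) (hB : Bᵀ = -B)
    (hBJ : (B.map (fun q : ℚ => (q : ℝ)) * J)ᵀ = B.map (fun q : ℚ => (q : ℝ)) * J)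
    (hpos : ∀ x : ι → ℝ, x ≠ 0 → 0 < x ⬝ᵥ ((B.map (fun q : ℚ => (q : ℝ)) * J) *ᵥ x)) :
    ∃ (X : AV) (b : Basis ι ℚ X.H),
      ∀ j, Complex.I • X.per (b j) = ∑ i, (J i j : ℂ) • X.per (b i) :=
  ⟨av J hJ B hB hBJ hpos, Pi.basisFun ℚ ι, av_isJ J hJ⟩

end Pool.Agent.H53.DM
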